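import Pool.Agent.N171.TG.Sm

/-!
# Semisimplicity at every prime number, over every number field, from the Galois image modulo two

Let `F` be a number field and `M` a pure motive over `F` with an ALTERNATING polarization, of weight
`w > 0` (for instance the middle cohomology of a hypersurface or complete intersection of odd
dimension). Let `R` be the restriction of scalars of `M` to `ℚ`, of rank `n`; its `ℓ`-adic realization is
the representation of the Galois group of `ℚ` induced by the realization `V_ℓ` of `M`. Over the Galois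
closure `F'` of `F` the motive `R` is the sum of the conjugates `M ^ σ` of `M`, and this sum is
orthogonal for the form given by the polarizations. `R` is a pure system over `ℚ` (`IsPureSystem`;
`Γ` is the Galois group of `ℚ` and `θ` is the identity; as for the starting results on this
question, `Γ` may also be the fundamental group of a variety with a rational point).

**Theorem.** Suppose that the forms on the conjugates are integral with odd determinant on lattices
stable under Galois, and that the Galois group `H` of `F'` has a large JOINT image on the conjugates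
MODULO TWO (`LargeModTwo`): for each conjugate `M i` of rank `N i ≥ 6` there are `N i + 1` integral vectors
with odd mutual products, and each EVEN permutation of these vectors modulo two is given by an
element of `H` which acts trivially on the other conjugates modulo two. (For example if the joint image
modulo two contains the product of the groups `Sp(N i, 𝔽₂)`, or only the product of the alternating
groups of degrees `N i + 1`.) Then for EVERY prime number `ℓ` the representation `R_ℓ` is semisimple, for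
all subgroups `U` of finite index, and so are all its subrepresentations `V` for `U`. In particular
`V_ℓ`, which is a subrepresentation of `R_ℓ` for the Galois group of `F`, is semisimple for EVERY `ℓ`,
for the Galois group of `F` and of all finite extensions of `F`.

So the conjecture of Grothendieck and Serre follows for all prime numbers, without exception, and over all
number fields, from the size of one finite Galois group, the image modulo two. There is no
hypothesis about other prime numbers, on Frobenius polynomials, or on Hodge numbers. In the statement the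
index `i` runs over the conjugates (or over any orthogonal decomposition over any subgroup `H`, not
necessarily into conjugates).

Idea of the proof. The joint image modulo two determines the Lie algebra of the joint 2-adic image: it
contains the product of the symplectic Lie algebras (`Pool.Agent.N171.TG.Tn9`). This product contains
an element whose eigenvalues are simple and have different absolute values up to sign, so without
isotropic relation, and the theorem of the starting library `Pool.Agent.R932.SQ` (from one such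
element at one prime number to semisimplicity at all prime numbers, over `ℚ`) applies. Clifford's and
Maschke's theorems give the case of subgroups of finite index.
-/

set_option autoImplicit false

namespace Pool.Agent.Results.MP_b4801b_ag.FromImageModTwo

open Matrix Polynomial Filter Topology NumberField IsDedekindDomain

/-- the absolute Galois group, with the profinite (Krull) topology -/
abbrev AbsoluteGaloisGroup (K : Type) [Field K] : Type := Gal(AlgebraicClosure K/K)

/-- `σ` is a Frobenius element at the prime `v` of `K`: there is a maximal ideal `Q` above `v` of the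
ring of all algebraic integers with `σ x ≡ x ^ N(v)` modulo `Q` for all `x` -/
def IsFrobenius {K : Type} [Field K] [NumberField K] (v : HeightOneSpectrum (𝓞 K))
    (σ : AbsoluteGaloisGroup K) : Prop :=
  ∃ Q : Ideal (𝓞 (AlgebraicClosure K)), Q.IsMaximal ∧
    Q.comap (algebraMap (𝓞 K) (𝓞 (AlgebraicClosure K))) = v.asIdeal ∧
    ∀ x : 𝓞 (AlgebraicClosure K), σ • x - x ^ Ideal.absNorm v.asIdeal ∈ Q

/-- Representations `ρ ℓ` of a group `Γ` on the `n`-dimensional spaces over the fields of `ℓ`-adic
numbers, for all prime numbers `ℓ`, and a homomorphism `θ` from the absolute Galois group of `ℚ` to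
`Γ`, such that
* `ρ ℓ` is continuous on the Galois group of `ℚ`,
* `Γ` acts by similitudes, with factor `χ ℓ`, of the nondegenerate symmetric or alternating form with
  matrix `J ℓ`,
* the representations are pure of weight `w` and form a compatible system: outside of the finite set
  `S` of places the inverse of a Frobenius element at `v` acts for all `ℓ` not divisible by `v` with the
  characteristic polynomial `P v`, which has integral coefficients and complex roots of absolute value
  `N(v) ^ (w / 2)`, and with similitude factor `N(v) ^ w`. -/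
structure IsPureSystem {Γ : Type} [Group Γ] (θ : AbsoluteGaloisGroup ℚ →* Γ) (n w : ℕ)
    (S : Set (HeightOneSpectrum (𝓞 ℚ))) (P : HeightOneSpectrum (𝓞 ℚ) → ℤ[X])
    (ρ : ∀ (ℓ : ℕ) [Fact ℓ.Prime], Γ →* Matrix (Fin n) (Fin n) ℚ_[ℓ])
    (J : ∀ (ℓ : ℕ) [Fact ℓ.Prime], Matrix (Fin n) (Fin n) ℚ_[ℓ])
    (χ : ∀ (ℓ : ℕ) [Fact ℓ.Prime], Γ → ℚ_[ℓ]) : Prop where
  finite : S.Finite
  monic : ∀ v ∉ S, (P v).Monic
  weight : ∀ v ∉ S, ∀ z : ℂ, aeval z (P v) = 0 → ‖z‖ ^ 2 = (Ideal.absNorm v.asIdeal : ℝ) ^ w
  continuous : ∀ (ℓ : ℕ) [Fact ℓ.Prime], Continuous fun g => ρ ℓ (θ g)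
  symm_or_alt : ∀ (ℓ : ℕ) [Fact ℓ.Prime], (J ℓ)ᵀ = J ℓ ∨ (J ℓ)ᵀ = -J ℓ
  nondegenerate : ∀ (ℓ : ℕ) [Fact ℓ.Prime], (J ℓ).det ≠ 0
  similitude : ∀ (ℓ : ℕ) [Fact ℓ.Prime] (g : Γ), (ρ ℓ g)ᵀ * J ℓ * ρ ℓ g = χ ℓ g • J ℓ
  charpoly : ∀ (ℓ : ℕ) [Fact ℓ.Prime], ∀ v ∉ S, (ℓ : 𝓞 ℚ) ∉ v.asIdeal →
    ∀ σ : AbsoluteGaloisGroup ℚ, IsFrobenius v σ →
      (ρ ℓ (θ σ⁻¹)).charpoly = (P v).map (algebraMap ℤ ℚ_[ℓ])
  factor : ∀ (ℓ : ℕ) [Fact ℓ.Prime], ∀ v ∉ S, (ℓ : 𝓞 ℚ) ∉ v.asIdeal →
    ∀ σ : AbsoluteGaloisGroup ℚ, IsFrobenius v σ →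
      χ ℓ (θ σ⁻¹) = (Ideal.absNorm v.asIdeal : ℚ_[ℓ]) ^ w

/-- On the subgroup `H` the 2-adic representation is block diagonal, with the representations `r i` as
blocks, and the form is block diagonal, with the alternating blocks `B i`. -/
structure IsOrthogonalSum {Γ : Type} [Group Γ] (θ : AbsoluteGaloisGroup ℚ →* Γ) {n d : ℕ}
    {N : Fin d → ℕ} (E : (Σ i, Fin (N i)) ≃ Fin n) (ρ : Γ →* Matrix (Fin n) (Fin n) ℚ_[2])
    (J : Matrix (Fin n) (Fin n) ℚ_[2]) (H : Subgroup (AbsoluteGaloisGroup ℚ))
    (r : ∀ i, H →* Matrix (Fin (N i)) (Fin (N i)) ℚ_[2])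
    (B : ∀ i, Matrix (Fin (N i)) (Fin (N i)) ℚ_[2]) : Prop where
  blocks : ∀ h : H, ρ (θ h) = (blockDiagonal' fun i => r i h).submatrix E.symm E.symm
  form : J = (blockDiagonal' B).submatrix E.symm E.symm
  alternating : ∀ i, (B i)ᵀ = -B i

/-- The joint image of `H` modulo two on the blocks is large: the lattices `ℤ₂ ^ N i` are stable, the
forms are integral, `N i ≥ 6`, the `N i + 1` integral vectors `e i a` have odd products
`B i (e i a, e i b)` for `a ≠ b`, and each even permutation of the vectors `e i a` modulo two is the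
action of an element of `H` which acts trivially on the other lattices modulo two. -/
structure LargeModTwo {H : Type} [Group H] {d : ℕ} {N : Fin d → ℕ}
    (r : ∀ i, H →* Matrix (Fin (N i)) (Fin (N i)) ℚ_[2])
    (B : ∀ i, Matrix (Fin (N i)) (Fin (N i)) ℚ_[2])
    (e : ∀ i, Fin (N i + 1) → Fin (N i) → ℚ_[2]) : Prop where
  rank : ∀ i, 6 ≤ N i
  integral : ∀ i g a b, ‖r i g a b‖ ≤ 1
  integral_form : ∀ i a b, ‖B i a b‖ ≤ 1
  integral_vectors : ∀ i a b, ‖e i a b‖ ≤ 1
  products : ∀ i a b, a ≠ b → ‖e i a ⬝ᵥ B i *ᵥ e i b‖ = 1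
  permutations : ∀ i (π : Equiv.Perm (Fin (N i + 1))), Equiv.Perm.sign π = 1 →
    ∃ g : H, (∀ a b, ‖(r i g *ᵥ e i a - e i (π a)) b‖ < 1) ∧
      ∀ j, j ≠ i → ∀ a b, ‖(r j g - 1) a b‖ < 1

/-- the subspace `W` is stable under the subgroup `U` -/
def IsStable {F : Type} [Field F] {n : ℕ} {Γ : Type} [Group Γ] (ρ : Γ →* Matrix (Fin n) (Fin n) F)
    (U : Subgroup Γ) (W : Submodule F (Fin n → F)) : Prop :=
  ∀ g ∈ U, ∀ x ∈ W, ρ g *ᵥ x ∈ W

/-- the subrepresentation `V` of the restriction to `U` is semisimple: every stable subspace of `V`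
has a stable complement in `V` -/
def IsSemisimpleOn {F : Type} [Field F] {n : ℕ} {Γ : Type} [Group Γ]
    (ρ : Γ →* Matrix (Fin n) (Fin n) F) (U : Subgroup Γ) (V : Submodule F (Fin n → F)) : Prop :=
  ∀ W ≤ V, IsStable ρ U W → ∃ W' ≤ V, IsStable ρ U W' ∧ W ⊓ W' = ⊥ ∧ W ⊔ W' = V

theorem result {Γ : Type} [Group Γ] (θ : AbsoluteGaloisGroup ℚ →* Γ) {n w : ℕ} (hw : 0 < w)
    (S : Set (HeightOneSpectrum (𝓞 ℚ))) (P : HeightOneSpectrum (𝓞 ℚ) → ℤ[X])
    (ρ : ∀ (ℓ : ℕ) [Fact ℓ.Prime], Γ →* Matrix (Fin n) (Fin n) ℚ_[ℓ])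
    (J : ∀ (ℓ : ℕ) [Fact ℓ.Prime], Matrix (Fin n) (Fin n) ℚ_[ℓ])
    (χ : ∀ (ℓ : ℕ) [Fact ℓ.Prime], Γ → ℚ_[ℓ]) (h : IsPureSystem θ n w S P ρ J χ)
    -- the decomposition over a subgroup, and the hypothesis on the joint image modulo two
    {d : ℕ} {N : Fin d → ℕ} (E : (Σ i, Fin (N i)) ≃ Fin n) (H : Subgroup (AbsoluteGaloisGroup ℚ))
    (r : ∀ i, H →* Matrix (Fin (N i)) (Fin (N i)) ℚ_[2])
    (B : ∀ i, Matrix (Fin (N i)) (Fin (N i)) ℚ_[2]) (hs : IsOrthogonalSum θ E (ρ 2) (J 2) H r B)
    (e : ∀ i, Fin (N i + 1) → Fin (N i) → ℚ_[2]) (h2 : LargeModTwo r B e) :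
    -- semisimplicity at every prime number
    ∀ (ℓ : ℕ) [Fact ℓ.Prime] (U : Subgroup Γ), U.FiniteIndex →
      ∀ V : Submodule ℚ_[ℓ] (Fin n → ℚ_[ℓ]), IsStable (ρ ℓ) U V → IsSemisimpleOn (ρ ℓ) U V := by
  intro ℓ hℓ U hU V hV W hWV hW
  exact (Pool.Agent.N171.TG.ss_block (Module.finrank_self ℚ) θ hw h.finite P
    (fun v hv => ⟨h.monic v hv, h.weight v hv⟩) ρ (fun ℓ _ => h.continuous ℓ) J
    (fun ℓ _ => h.symm_or_alt ℓ) (fun ℓ _ => h.nondegenerate ℓ) χ (fun ℓ _ => h.similitude ℓ)
    (fun ℓ _ v hv hvℓ σ hσ => ⟨h.charpoly ℓ v hv hvℓ σ hσ, h.factor ℓ v hv hvℓ σ hσ⟩)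
    E H r B hs.blocks hs.form h2.rank hs.alternating h2.integral h2.integral_form e
    h2.integral_vectors h2.products h2.permutations ℓ U hU).sub hV hW hWV

end Pool.Agent.Results.MP_b4801b_ag.FromImageModTwo
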