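import Pool.Agent.N184.HK.V7

/-!
# Semisimplicity of the Galois action on the cohomology of projective hyperkähler varieties

Let `X` be a projective hyperkähler variety over a number field `K`, of any deformation type. We
prove that the Galois group acts semisimply on `H^i(X_{\bar K}, \bar{ℚ}_ℓ)` for all `i` and all `ℓ`.
Inputs are known facts on `H²` (André, Faltings), the action of the Lie algebra `so(H²)` on the
cohomology (Verbitsky, Looijenga-Lunts), and standard facts on the `ℓ`-adic and the crystalline
cohomology.

Idea of the proof. Let `A_i` be the algebra of the endomorphisms of `H^i` which commute with `so(H²)`.

(1) At a good place of degree one the slope operator of the crystalline cohomology `H^i` is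
`i / 2 + ρ_i(S) + T_i`, with `S` in `so(H²)` and `T_i` in `A_i`. As `so(H²)` is perfect, the Hodge
numbers of the eigenspaces of `T_i` are `i / 2` times the dimension, and weak admissibility shows
that `T_i` is nilpotent. Equivalently the sum over `i` of the second moments of the slopes is a
constant, depending on the cohomology ring only, times the second moment for `H²`. Therefore the same
is true for the `ℓ`-adic cohomology and the valuations above `p`, and the eigenvalues of Frobenius on
`A_i` are units at all places, hence roots of unity of bounded order.

(2) By Chebotarev's theorem all elements of the Galois group act quasi-unipotently on `A_i`, so an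
open subgroup `U` acts unipotently. At a place which does not divide `ℓ` the monodromy operator
`N_i - ρ_i(N_2)` is in `A_i` and has the eigenvalue `1 / q` for Frobenius, so it is zero; at the
places above `ℓ` the Hodge-Tate weights of `A_i` are zero. So the inertia groups act on `A_i` through
finite quotients, and the inertia subgroups of `U` act trivially. By Kolchin's theorem and class
field theory, `U` acts trivially: **the Galois group acts on `A_i` through a finite quotient.**

(3) So `U` acts on `H^i` by elements of the bicommutant of `so(H²)`, which is the algebra `B_i`
generated by `so(H²)` (Weyl, Jacobson, Burnside). The action of `U` on `B_i` by conjugation is a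
quotient of the action on tensor powers of `so(H²)`, so it is semisimple. If `V` is an irreducible
`so(H²)`-submodule of `H^i` then it is stable under `U`, and `B_i → End V` is surjective, so that
`End V` is semisimple for the action of `U` by conjugation. By a lemma of Serre `V` is semisimple.
-/

set_option autoImplicit false

namespace Pool.Agent.Results.MP_b4801b_ag.HyperkaehlerVarieties

open Pool.Agent.N184.HK Pool.Agent.W401.Cheb

/-- **Semisimplicity of the Galois action on the cohomology of projective hyperkähler varieties over
number fields.** For all `i`, every subspace of `H^i(X)` which is stable under the Galois group has
a stable complement. -/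
theorem result {K : Type} [Field K] [NumberField K] {Ω : Type} [Field Ω] [CharZero Ω]
    [IsAlgClosed Ω] [TopologicalSpace Ω] [IsTopologicalRing Ω] [T2Space Ω] (X : HKVariety K Ω)
    (D : SemisimpleTwo X) :
    ∀ i ≤ X.d, SSet (Set.range fun σ : GK K => X.E.Φ σ i) :=
  fun _ hi => semisimple_all D hi

end Pool.Agent.Results.MP_b4801b_ag.HyperkaehlerVarieties
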