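import Pool.Agent.N144.PR.Gal

/-!
# Semisimplicity at every prime number from one elliptic element

Let `M` be a direct sum of pure motives `M i` (in the category of André) over a finitely generated field
`k` of characteristic zero; `Γ` is the Galois group of `k`, or the fundamental group of a model, and `ρ ℓ`
the action of `Γ` on the `ℓ`-adic realization `V_ℓ` of `M`.  Let `𝔤` be the Lie algebra (over `ℚ`, in the
Betti realization) of the motivic Galois group of `M` over an algebraically closed field.

The motives which are considered here have over the algebraic closure multiplication by an imaginary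
quadratic field `F`, which is compatible with the polarization `ψ`, and the rank of `M` over `F` is
a PRIME number `p`.  Let `ℓ₀` be a prime number which splits in `F`, `λ`, `μ` the places of `F` above
`ℓ₀`; then `V_ℓ₀ = V_λ ⊕ V_μ`, with subspaces of dimension `p` which are isotropic and dual to each
other.  In `QuadraticType` there is only the data at `ℓ₀`: `J` is a generator of `F` over `ℚ` of trace
zero and `j` its image at `λ`, so that `V_λ` is the eigenspace of `J` for the eigenvalue `j`.  Then
`𝔤 ⊗ ℚ_ℓ₀` is contained in the Lie algebra of the endomorphisms which commute with `J` and are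
similitudes of `ψ`.

**Theorem.**  Suppose that no subgroup of finite index of `Γ` acts on `V_ℓ₀` by commuting operators.

(1) Suppose that `k = ℚ`, or that there is a point `s` over `ℚ` of the model, and that some element `σ` of
the image of the Galois group of `ℚ` in `Γ` preserves `V_λ` and `V_μ`, acts irreducibly on `V_λ`, has
multiplicatively independent determinants on `V_λ` and `V_μ`, and no power of `σ` acts on `V_λ` by a
scalar (`Elliptic`).  Then for EVERY prime number `ℓ` the representation `V_ℓ` of `Γ` is
semisimple, also over all finite extensions of `k`; moreover, the Lie algebra of the endomorphisms which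
kill all Tate tensors is a reductive subalgebra of `𝔤 ⊗ ℚ_ℓ` of maximal rank `p + 1`, all Tate tensors
are motivated if all Tate endomorphisms are, and so on (`RankTheorem`).

(2) Suppose that `k` is a number field `K`, or that there is a point over `K` of the model,
and that `σ` is a Frobenius element at a place `v₀` of good reduction above the prime number `p₀`,
which is unramified in `K`, such that the places above `p₀` are independent (there is no condition if
there is only one).  Then the same is true for all prime numbers `ℓ ≠ p₀`.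

In other words, one element at one prime number is sufficient for the semisimplicity at all prime numbers.
The prime number `ℓ₀` is needed only to see that the motivic Galois group is big.

Proof.  The eigenvalues of `σ` on `V_λ` are the conjugates of an element of a field of degree `p` over
`ℚ_ℓ₀`; there is a cyclic group of order `p` of permutations of them in the Galois group, and it follows
that they are multiplicatively independent, and that there is an eigenvalue on `V_μ` which is
independent of them.  A Lie algebra of endomorphisms of a space of prime dimension `p` which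
contains a field of degree `p` is closed under products, and if it is not commutative it is
everything (`Pool.Agent.N144.PR.lie_all`); so `𝔤 ⊗ ℚ_ℓ₀` is the Lie algebra of all similitudes,
isomorphic to `𝔤𝔩_p × 𝔤𝔪`.  Hence the rank of `𝔤` is `p + 1`, the number of the independent
eigenvalues.  The theorem follows from the theorems about ranks and endomorphisms
(`Pool.Agent.N203.RE`, see the hand-in `RankAndEndomorphisms` of `MP_b8862a_ag`).
-/

set_option autoImplicit false

namespace Pool.Agent.Results.MP_b4801b_ag.PrimeRankEveryPrime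

open NumberField IsDedekindDomain Module Pool.Agent.Y114.RM Pool.Agent.Y114.GF Pool.Agent.Y114.TF
  Pool.Agent.Y114.MU Pool.Agent.R931.IR Pool.Agent.N203.RE Pool.Agent.N144.PR

section general

variable (k V : Type) [Field k] [AddCommGroup V] [Module k V]

/-- The multiplication by the quadratic field and the polarization, on the `ℓ`-adic realization. -/
structure QuadMult where
  /-- the prime number -/
  p : ℕ
  /-- the endomorphism -/
  J : End k V
  /-- its eigenvalue -/
  j : k
  /-- the form -/
  form : V →ₗ[k] V →ₗ[k] k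
  type : QuadraticType p J j form

variable {k V} (A : QuadMult k V) {Γ : Type} [Group Γ] (ρ : Representation k Γ V)

/-- All elements of `𝔤` commute with `J` and are (infinitesimal) similitudes. -/
def MultOn (𝔤 : Submodule k (End k V)) : Prop := ∀ X ∈ 𝔤,
  X * A.J = A.J * X ∧ ∃ c, ∀ x y, A.form (X x) y + A.form x (X y) = c * A.form x y

/-- The element `σ` acts irreducibly on `V_λ`, preserves `V_μ`, has independent determinants on them,
and no power of it is a scalar on `V_λ`. -/
def EllipticAt (σ : Γ) : Prop := Elliptic A.J A.j (ρ σ)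

/-- No subgroup of finite index acts by commuting operators. -/
def NeverCommutes : Prop := ∀ Δ : Subgroup Γ, Δ.FiniteIndex →
  ∃ a ∈ Δ, ∃ b ∈ Δ, ∃ x, ρ a (ρ b x) ≠ ρ b (ρ a x)

end general

section ladic

variable {ι : Type} (n : ι → ℕ) (ℓ : ℕ) [Fact ℓ.Prime] {Γ : Type} [Group Γ]

/-- The multiplications on the direct sum of the spaces `ℚ_ℓ ^ (n i)`. -/
def Mult : Type := QuadMult ℚ_[ℓ] (∀ i, Fin (n i) → ℚ_[ℓ])

variable {n ℓ} (ρ : Reps Γ n ℓ) (𝔤 : Submodule ℚ (End ℚ (Betti n))) (A : Mult n ℓ)

/-- The rank of the motivic Galois group. -/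
def rank : ℕ := QuadMult.p A + 1

/-- The extension of scalars of `𝔤` commutes with `J` and consists of similitudes. -/
def HasMult : Prop := MultOn A (scalars ℓ 𝔤)

/-- The element `σ` is elliptic (`EllipticAt`). -/
def IsElliptic (σ : Γ) : Prop := EllipticAt A (sumRep ρ) σ

/-- No subgroup of finite index acts by commuting operators. -/
def NotAbelian : Prop := NeverCommutes (sumRep ρ)

end ladic

section place

variable (K : Type) [Field K] [NumberField K] (Γ : Type) [Group Γ]

/-- The homomorphisms from the Galois group of `K` (a point of the model over `K`). -/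
abbrev Point : Type := Gal(AlgebraicClosure K/K) →* Γ

variable {K Γ}

/-- The place `v₀` is above the prime number `p₀ ≠ ℓ₀`, which is unramified in `K`, the places above
`p₀` are outside of `S`, and they are independent (`PlacesIndependent`). -/
structure PlaceAt {ι : Type} (S : Set (HeightOneSpectrum (𝓞 K)))
    (P : HeightOneSpectrum (𝓞 K) → ι → Polynomial ℚ) (ℓ₀ p₀ : ℕ) (v₀ : HeightOneSpectrum (𝓞 K)) :
    Prop where
  prime : p₀.Prime
  ne : ℓ₀ ≠ p₀
  unramified : UnramifiedIn K p₀
  above : Above v₀ p₀
  good : ∀ v, Above v p₀ → v ∉ S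
  independent : PlacesIndependent P p₀

/-- A (geometric) Frobenius element at `v₀` is elliptic. -/
def EllipticFrobenius {ι : Type} {n : ι → ℕ} {ℓ : ℕ} [Fact ℓ.Prime] (ρ : Reps Γ n ℓ)
    (A : Mult n ℓ) (s : Point K Γ) (v₀ : HeightOneSpectrum (𝓞 K)) : Prop :=
  ∃ Q, PrimeOver Q v₀ ∧ ∃ g, IsFrobAt Q (q v₀) g ∧
    IsElliptic ρ A (s g⁻¹)

end place

theorem result {Γ : Type} [Group Γ] [TopologicalSpace Γ] [IsTopologicalGroup Γ] [CompactSpace Γ]
    {ι : Type} [Fintype ι] [DecidableEq ι] {n : ι → ℕ}
    -- the `ℓ`-adic realizations and the Lie algebra of the motivic Galois group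
    (ρ : ∀ (ℓ : ℕ) [Fact ℓ.Prime], Reps Γ n ℓ) (𝔤 : Submodule ℚ (End ℚ (Betti n)))
    -- the multiplication and the polarization at the prime number `ℓ₀`
    (ℓ₀ : ℕ) [Fact ℓ₀.Prime] (A : Mult n ℓ₀) (h𝔤 : HasMult 𝔤 A) (hab : NotAbelian (ρ ℓ₀)) :
    -- (1) a point over the rational numbers: all prime numbers `ℓ`
    (∀ (s : Gal(AlgebraicClosure ℚ/ℚ) →* Γ) (w : ι → ℤ) (S : Set (HeightOneSpectrum (𝓞 ℚ)))
      (P : HeightOneSpectrum (𝓞 ℚ) → ι → Polynomial ℚ), Realizations s w S P ρ 𝔤 →
      ∀ c : ℕ, IntegralOutside S P c → (∃ τ, IsElliptic (ρ ℓ₀) A (s τ)) →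
      ∀ (ℓ : ℕ) [Fact ℓ.Prime], RankTheorem (ρ ℓ) 𝔤 (rank A)) ∧
    -- (2) an elliptic Frobenius element at a place of a number field
    (∀ (K : Type) [Field K] [NumberField K] (s : Point K Γ) (w : ι → ℤ)
      (S : Set (HeightOneSpectrum (𝓞 K))) (P : HeightOneSpectrum (𝓞 K) → ι → Polynomial ℚ),
      Realizations s w S P ρ 𝔤 → ∀ (p₀ : ℕ) (v₀ : HeightOneSpectrum (𝓞 K)), PlaceAt S P ℓ₀ p₀ v₀ →
      EllipticFrobenius (ρ ℓ₀) A s v₀ →
      ∀ (ℓ : ℕ) [Fact ℓ.Prime], ℓ ≠ p₀ → RankTheorem (ρ ℓ) 𝔤 (rank A)) := by
  have hab' : Pool.Agent.N144.TD.NotPotentiallyAbelian (ρ ℓ₀) := fun Δ hΔ => by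
    obtain ⟨a, ha, b, hb, x, hx⟩ := hab Δ hΔ
    exact ⟨a, ha, b, hb, fun h => hx (LinearMap.congr_fun h x)⟩
  have h𝔤' : scal ℓ₀ 𝔤 ≤ sims (QuadMult.J A) (QuadMult.form A) := h𝔤
  have hA := QuadMult.type A
  refine ⟨fun s w S P hR c hint => ?_, fun K _ _ s w S P hR p₀ v₀ hv₀ => ?_⟩
  · rintro ⟨τ, hτ⟩ ℓ _
    obtain ⟨hZ, -⟩ := main_aux (ρ ℓ₀) (hR.continuous ℓ₀) (scal ℓ₀ 𝔤) (hR.motivic ℓ₀) hA h𝔤' hab'
      (s τ) hτ
    exact main_element hR c hint (QuadMult.p A + 1) (ratRank hA h𝔤' hZ) ℓ₀
      ⟨τ, independent_of (ρ ℓ₀) hA hτ⟩ ℓ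
  · rintro ⟨Q, hQ, g, hg, hτ⟩ ℓ _ hℓ
    obtain ⟨hZ, -⟩ := main_aux (ρ ℓ₀) (hR.continuous ℓ₀) (scal ℓ₀ 𝔤) (hR.motivic ℓ₀) hA h𝔤' hab' _
      hτ
    have hnA : ¬ Above v₀ ℓ₀ := fun h' => hv₀.ne
      (Pool.Agent.R931.GD.above_inj hv₀.prime (Fact.out : ℓ₀.Prime) hv₀.above h').symm
    refine main_place hR (QuadMult.p A + 1) (ratRank hA h𝔤' hZ) p₀
      ⟨hv₀.prime, hv₀.unramified, hv₀.good, hv₀.independent, v₀, hv₀.above, ?_⟩ ℓ hℓ
    exact independent_roots (ρ ℓ₀) hA hτ fun i =>
      ((hR.good ℓ₀ v₀ (hv₀.good v₀ hv₀.above) hnA i).2 Q hQ g).2 hg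

end Pool.Agent.Results.MP_b4801b_ag.PrimeRankEveryPrime
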