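import Pool.Agent.N211.TP4.Main

/-!
# Semisimplicity from the Tate conjecture for one explicit product

Let `X` be a smooth projective variety over a finitely generated field `F` of characteristic zero,
let `m` be a positive integer, let `b` be the `i`-th Betti number of `X ^ m`, and let `K = m b`. Let
`A` be a product of abelian varieties with complex multiplication in whose cohomology the duals of
the lines in `H(X ^ K)` which are stable under open subgroups of the Galois group occur (up to Tate
twists and over finite extensions). If the Tate conjecture holds for the variety `X ^ K × A` over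
all finite extensions of `F`, then `H^i(X ^ m)` is a semisimple representation of the Galois group
of `F` and of every finite extension.

In the Lean statement `pw X m` is the product of `m + 1` copies of `X`, `T` is the theory
`X ↦ H(X, ℚ)` for an embedding of the algebraic closure of `F` in the field of complex numbers, `Γ` is
the Galois group of `F` and `E` is the field of `ℓ`-adic numbers.

The proof. Let `U` be a stable subspace of dimension `r` of `V = H^i(X ^ m)`. The line `Λ^r U` is
contained in `H(X ^ (m r))`, and there is a dual line in `H(A)`. The product of these lines is a Tate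
class on `X ^ (m r) × A`, so it is a combination of classes of algebraic cycles. These are fixed by
the Weil operators, and so the polarisations of `X` and of `A` give a functional on `H(X ^ (m r))`
which does not vanish on the line `Λ^r U` and is multiplied with the same character. Thus there is an
alternating form of degree `r` on `V` which is semi-invariant and not zero on `U`; contracting it
with the line `Λ^r U` gives an equivariant map of `V` to `U` which is not zero on `U`, and the
elements of `V` which are orthogonal to `U` for this form are a complement of `U`.
-/

open CategoryTheory AlgebraicGeometry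

universe u

namespace Pool.Agent.Results.MP_b4801b_ag.TateOnOneProduct

open Pool.Agent.H914 Pool.Agent.Y121.AHS Pool.Agent.N211.TP2 Pool.Agent.N211.TP3
  Pool.Agent.N211.TP4
open Pool.Agent.Y133.Half (pw)

/-- **The Tate conjecture for one product implies semisimplicity.** -/
theorem result {k : Type u} [Field k] {𝒱 : VarClass k} {ops : CycleOps 𝒱} (T : HodgeTheory ops)
    {X A : 𝒱.Obj} (ψ : Bil T.W.K (T.W.H X)) (hψ : IsPolarisation T X ψ)
    {E : Type} [Field E] [Algebra T.W.K E] (hE : Nonempty (E →+* ℂ))
    {Γ : Type} [Group Γ] [TopologicalSpace Γ] (χ : Γ → E)
    (ρ : ∀ n, Γ → PowH T E X n → PowH T E X n) (hG : IsGalois (cohOps T E ψ) χ ρ)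
    (hC : ∀ n j, ∀ x ∈ cycClasses T E X n j, IsTate (cohOps T E ψ) χ ρ j x)
    {m i N : ℕ} (hN : (m + 1) * rk (T.W.gr (pw X m) i) ≤ N + 1)
    {σA : Γ → PowH T E A 0 → PowH T E A 0} {σP : Γ → ProdH T E X A N → ProdH T E X A N}
    (hP : HasDualLines E (prodOps T E X A N) χ (ρ N) σA σP)
    (hT : TateForProduct (prodOps T E X A N) χ σP)
    (Δ : Subgroup Γ) (hΔ : Δ.FiniteIndex) (hΔ' : IsOpen (Δ : Set Γ)) :
    IsSemisimple (cohOps T E ψ) ρ Δ m i :=
  main hψ hE hG hC hP hT hN Δ hΔ hΔ'

end Pool.Agent.Results.MP_b4801b_ag.TateOnOneProduct
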